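import Pool.Agent.helper82.SC.SpecC

/-! # sp:CCE : discrete contour, exact part -/

namespace Pool.Agent.helper82.SC

theorem CE_strip (G : Dart → ℂ) (hG : ∀ x, G (star x) = G x) (j : ℤ) (L : ℕ) : ∀ (i₀ : ℤ),
    (∀ i : ℤ, i₀ ≤ i → i < i₀ + L → ∀ b : Bool,
      ∑ d : Fin 3, tau ^ (d : ℕ) * G (((i, j), b), d) = 0) →
    (∑ k ∈ Finset.range L, G (hor (i₀ + k) j)) - (∑ k ∈ Finset.range L, G (hor (i₀ + k) (j + 1)))
      + tau ^ 2 * G (((i₀, j), false), 2) - tau ^ 2 * G (((i₀ + L, j), false), 2) = 0 := by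
  intro i₀ h
  induction L with
  | zero => simp
  | succ L ih =>
    have hL := ih (fun i h1 h2 b => h i h1 (by push_cast; omega) b)
    have hu := h (i₀ + L) (by omega) (by push_cast; omega) false
    have hd := h (i₀ + L) (by omega) (by push_cast; omega) true
    rw [Fin.sum_univ_three] at hu hd
    have e0 : G (((i₀ + L, j), true), 0) = G (hor (i₀ + L) (j + 1)) := by
      rw [← hG (((i₀ + L, j), true), 0)]
      rfl
    have e1 : G (((i₀ + L, j), true), 1) = G (((i₀ + L, j), false), 1) := by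
      rw [← hG (((i₀ + L, j), true), 1)]
      rfl
    have e2 : G (((i₀ + L, j), true), 2) = G (((i₀ + (L + 1 : ℕ), j), false), 2) := by
      rw [← hG (((i₀ + L, j), true), 2)]
      have : star (((i₀ + (L : ℤ), j), true), 2) = (((i₀ + (L : ℤ) + 1, j), false), 2) := rfl
      rw [this]
      congr 4
      push_cast
      ring
    rw [e0, e1, e2] at hd
    rw [Finset.sum_range_succ, Finset.sum_range_succ]
    have f0 : ((0 : Fin 3) : ℕ) = 0 := rfl
    have f1 : ((1 : Fin 3) : ℕ) = 1 := rfl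
    have f2 : ((2 : Fin 3) : ℕ) = 2 := rfl
    rw [f0, f1, f2] at hu hd
    have g0 : G (((i₀ + L, j), false), 0) = G (hor (i₀ + L) j) := rfl
    rw [g0] at hu
    linear_combination hL + hu - hd

theorem CE : CE_stmt := by
  intro G i₀ L j hG h1 h2
  have a1 := CE_strip G hG j L i₀ h1
  have a2 := CE_strip G hG (j + 1) L (i₀ - 1) (fun i u v b => h2 i u v b)
  have e : j + 1 + 1 = j + 2 := by ring
  rw [e] at a2
  have tel : (∑ k ∈ Finset.range L, G (hor (i₀ - 1 + k) (j + 1))) -
      (∑ k ∈ Finset.range L, G (hor (i₀ + k) (j + 1))) =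
      G (hor (i₀ - 1) (j + 1)) - G (hor (i₀ - 1 + L) (j + 1)) := by
    have := Finset.sum_range_sub' (fun k : ℕ => G (hor (i₀ - 1 + k) (j + 1))) L
    rw [Finset.sum_sub_distrib] at this
    simp only [Nat.cast_zero, add_zero] at this
    rw [← this]
    congr 1
    refine Finset.sum_congr rfl fun k _ => ?_
    congr 2
    push_cast
    ring
  linear_combination a1 + a2 - tel

end Pool.Agent.helper82.SC
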