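import Pool.Agent.helper82.SC.SpecA

/-! # sp:CLR : the local relation -/

namespace Pool.Agent.helper82.SC

open Relation

theorem LR_tau : tau ^ 2 + tau + 1 = 0 := by
  have h3 : Real.sqrt 3 * Real.sqrt 3 = 3 := Real.mul_self_sqrt (by norm_num)
  unfold tau
  apply Complex.ext
  · simp only [sq, Complex.add_re, Complex.mul_re, Complex.one_re, Complex.zero_re]
    linear_combination (-(1 : ℝ) / 4) * h3
  · simp only [sq, Complex.add_im, Complex.mul_im, Complex.one_im, Complex.zero_im]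
    ring

theorem LR_tau3 : tau ^ 3 = 1 := by
  linear_combination (tau - 1) * LR_tau

theorem LR (hLC : LC_stmt) (hMV : MV_stmt) (hEX : EX_stmt) (hFC : FC_stmt) : LR_stmt := by
  classical
  intro D f hf hI
  obtain ⟨hfin, -⟩ := hFC D (f, 0) hf
  set Cf := hfin.toFinset with hCf
  have hcount : ∀ d j : Fin 3, {ψ | ψ ∈ D.Conf (f, d) ∧ D.Jn ψ (f, d) j}.ncard =
      (Cf.filter (fun ψ => D.Jn (mv f 0 d ψ) (f, d) j)).card := by
    intro d j
    have hb := hMV D f 0 d hf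
    have himg : {ψ | ψ ∈ D.Conf (f, d) ∧ D.Jn ψ (f, d) j} =
        mv f 0 d '' (↑(Cf.filter (fun ψ => D.Jn (mv f 0 d ψ) (f, d) j)) : Set (Dart → ZMod 2)) := by
      ext ψ
      constructor
      · rintro ⟨h1, h2⟩
        obtain ⟨φ, hφ, rfl⟩ := hb.surjOn h1
        refine ⟨φ, ?_, rfl⟩
        rw [Finset.mem_coe, Finset.mem_filter, hCf, Set.Finite.mem_toFinset]
        exact ⟨hφ, h2⟩
      · rintro ⟨φ, hφ, rfl⟩
        rw [Finset.mem_coe, Finset.mem_filter, hCf, Set.Finite.mem_toFinset] at hφ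
        exact ⟨hb.mapsTo hφ.1, hφ.2⟩
    have hinj : Set.InjOn (mv f 0 d)
        (↑(Cf.filter (fun ψ => D.Jn (mv f 0 d ψ) (f, d) j)) : Set (Dart → ZMod 2)) := by
      refine hb.injOn.mono ?_
      intro φ hφ
      rw [Finset.mem_coe, Finset.mem_filter, hCf, Set.Finite.mem_toFinset] at hφ
      exact hφ.1
    rw [himg, hinj.ncard_image, Set.ncard_coe_finset]
  -- the sum for one configuration
  have hone : ∀ ψ ∈ Cf, ∑ d : Fin 3, ∑ j : Fin 3, tau ^ ((d : ℕ) + (j : ℕ)) *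
      (if D.Jn (mv f 0 d ψ) (f, d) j then (1 : ℂ) else 0) = 0 := by
    intro ψ hψ
    rw [hCf, Set.Finite.mem_toFinset] at hψ
    have hinner : ∀ (d j : Fin 3), D.Jn (mv f 0 d ψ) (f, d) j →
        ∑ k : Fin 3, tau ^ ((d : ℕ) + (k : ℕ)) *
          (if D.Jn (mv f 0 d ψ) (f, d) k then (1 : ℂ) else 0) = tau ^ ((d : ℕ) + (j : ℕ)) := by
      intro d j hj
      obtain ⟨j', hj', huniq, -⟩ := hEX D (f, d) hf (mv f 0 d ψ) ((hMV D f 0 d hf).mapsTo hψ)
      have hjj : j = j' := huniq j hj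
      rw [Finset.sum_eq_single j]
      · rw [if_pos hj, mul_one]
      · intro k _ hk
        rw [if_neg, mul_zero]
        intro hk'
        exact hk ((huniq k hk').trans hjj.symm)
      · intro h
        exact absurd (Finset.mem_univ _) h
    obtain ⟨j, hj | hj⟩ := hLC D f ψ hf hI hψ
    · rw [Finset.sum_congr rfl fun d _ => hinner d j (hj d)]
      rw [Fin.sum_univ_three]
      have : tau ^ (((0 : Fin 3) : ℕ) + (j : ℕ)) + tau ^ (((1 : Fin 3) : ℕ) + (j : ℕ)) +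
          tau ^ (((2 : Fin 3) : ℕ) + (j : ℕ)) = tau ^ (j : ℕ) * (tau ^ 2 + tau + 1) := by
        have e0 : ((0 : Fin 3) : ℕ) = 0 := rfl
        have e1 : ((1 : Fin 3) : ℕ) = 1 := rfl
        have e2 : ((2 : Fin 3) : ℕ) = 2 := rfl
        rw [e0, e1, e2, pow_add, pow_add, pow_add]
        ring
      rw [this, LR_tau, mul_zero]
    · rw [Finset.sum_congr rfl fun d _ => hinner d (j + d) (hj d)]
      rw [Fin.sum_univ_three]
      have h1 := LR_tau
      have h3 := LR_tau3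
      fin_cases j
      · show tau ^ (0 + 0) + tau ^ (1 + 1) + tau ^ (2 + 2) = 0
        linear_combination h1 + tau * h3
      · show tau ^ (0 + 1) + tau ^ (1 + 2) + tau ^ (2 + 0) = 0
        linear_combination h1 + h3
      · show tau ^ (0 + 2) + tau ^ (1 + 0) + tau ^ (2 + 1) = 0
        linear_combination h1 + h3
  -- assembly
  have hP : ∀ d j : Fin 3, (D.P j (f, d) : ℂ) =
      (∑ ψ ∈ Cf, (if D.Jn (mv f 0 d ψ) (f, d) j then (1 : ℂ) else 0)) / 2 ^ D.U.card := by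
    intro d j
    unfold Dom.P
    rw [hcount, Finset.card_filter]
    push_cast
    congr 1
    refine Finset.sum_congr rfl fun ψ _ => ?_
    split_ifs
    · norm_num
    · norm_num
  have hsum : ∑ d : Fin 3, ∑ j : Fin 3, tau ^ ((d : ℕ) + (j : ℕ)) * (D.P j (f, d) : ℂ) =
      (∑ ψ ∈ Cf, ∑ d : Fin 3, ∑ j : Fin 3, tau ^ ((d : ℕ) + (j : ℕ)) *
        (if D.Jn (mv f 0 d ψ) (f, d) j then (1 : ℂ) else 0)) / 2 ^ D.U.card := by
    have hcomm : ∑ ψ ∈ Cf, ∑ d : Fin 3, ∑ j : Fin 3, tau ^ ((d : ℕ) + (j : ℕ)) *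
        (if D.Jn (mv f 0 d ψ) (f, d) j then (1 : ℂ) else 0) =
        ∑ d : Fin 3, ∑ j : Fin 3, ∑ ψ ∈ Cf, tau ^ ((d : ℕ) + (j : ℕ)) *
        (if D.Jn (mv f 0 d ψ) (f, d) j then (1 : ℂ) else 0) := by
      rw [Finset.sum_comm]
      exact Finset.sum_congr rfl fun d _ => Finset.sum_comm
    rw [hcomm, Finset.sum_div]
    refine Finset.sum_congr rfl fun d _ => ?_
    rw [Finset.sum_div]
    refine Finset.sum_congr rfl fun j _ => ?_
    rw [hP, ← Finset.mul_sum, mul_div_assoc]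
  rw [hsum, Finset.sum_eq_zero hone, zero_div]

end Pool.Agent.helper82.SC
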