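import Pool.Agent.helper83.SC.Stmt

open scoped Pointwise ContDiff
open MeasureTheory Set Filter Topology

set_option linter.unusedVariables false

namespace Pool.Agent.helper83.SC

theorem UA1_continuous {m : ℕ} {f : E m → ℝ} (hf : CV f) : Continuous f := by
  have h := ConvexOn.continuousOn isOpen_univ hf
  exact continuousOn_univ.mp h

theorem piece_closed_of : piece_closed_stmt := by
  intro m f hf T N
  have hc := UA1_continuous hf
  have hset : piece f T N = ⋂ (c : E m) (_ : ‖c‖ ≤ 1 / ((N : ℝ) + 1)),
      Prod.fst '' {p : E m × (Metric.closedBall (0 : E m) ((N : ℝ) + 1)) |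
        (∀ i ∈ T, (p.2 : E m) i = c i) ∧ f (p.1 + p.2) + f (p.1 - p.2) = 2 * f p.1} := by
    ext y
    simp only [piece, mem_setOf_eq, mem_iInter, mem_image, Prod.exists, Subtype.exists,
      mem_closedBall_zero_iff]
    constructor
    · intro h c hcn
      obtain ⟨w, h1, h2, h3⟩ := h c hcn
      exact ⟨y, w, h2, ⟨h1, h3⟩, rfl⟩
    · intro h c hcn
      obtain ⟨a, w, h2, ⟨h1, h3⟩, rfl⟩ := h c hcn
      exact ⟨w, h1, h2, h3⟩
  rw [hset]
  refine isClosed_iInter fun c => isClosed_iInter fun _ => ?_
  haveI : CompactSpace (Metric.closedBall (0 : E m) ((N : ℝ) + 1)) :=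
    isCompact_iff_compactSpace.mp (isCompact_closedBall _ _)
  refine isClosedMap_fst_of_compactSpace _ ?_
  refine IsClosed.and ?_ ?_
  · simp only [setOf_forall]
    refine isClosed_iInter fun i => isClosed_iInter fun _ => ?_
    refine isClosed_eq ?_ continuous_const
    fun_prop
  · refine isClosed_eq ?_ ?_ <;> fun_prop

end Pool.Agent.helper83.SC
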