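import Pool.Agent.helper83.SC.Stmt

open scoped Pointwise ContDiff
open MeasureTheory Set Filter Topology

set_option linter.unusedVariables false

namespace Pool.Agent.helper83.SC

/-- A set of coordinates that restricts bijectively to a subspace, and the dual basis. -/
theorem UA2_coords {m : ℕ} (W : Submodule ℝ (E m)) :
    ∃ (T : Finset (Fin m)) (v : Fin m → E m), T.card = Module.finrank ℝ W ∧
      ∀ i ∈ T, v i ∈ W ∧ ∀ j ∈ T, v i j = if i = j then 1 else 0 := by
  classical
  let φ : Fin m → Module.Dual ℝ W := fun i =>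
    { toFun := fun w => (w : E m) i
      map_add' := fun a b => by simp
      map_smul' := fun c a => by simp }
  have hφ : ∀ i (w : W), φ i w = (w : E m) i := fun i w => rfl
  obtain ⟨κ, a, ha, hspan, hli⟩ := exists_linearIndependent' ℝ φ
  have : Finite κ := Finite.of_injective a ha
  letI : Fintype κ := Fintype.ofFinite κ
  -- the functionals separate points
  have hsep : ∀ w : W, (∀ k, φ (a k) w = 0) → w = 0 := by
    intro w hw
    have h1 : ∀ ψ ∈ Submodule.span ℝ (Set.range φ), ψ w = 0 := by
      rw [← hspan]
      intro ψ hψ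
      induction hψ using Submodule.span_induction with
      | mem x hx =>
        obtain ⟨k, rfl⟩ := hx
        exact hw k
      | zero => simp
      | add x y _ _ hx hy => simp [hx, hy]
      | smul c x _ hx => simp [hx]
    apply Subtype.ext
    ext i
    have := h1 (φ i) (Submodule.subset_span ⟨i, rfl⟩)
    rw [hφ] at this
    simpa using this
  -- the linear map
  let L : W →ₗ[ℝ] (κ → ℝ) := LinearMap.pi fun k => φ (a k)
  have hL : ∀ w k, L w k = (w : E m) (a k) := fun w k => rfl
  have hLinj : Function.Injective L := by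
    rw [injective_iff_map_eq_zero]
    intro w hw
    apply hsep
    intro k
    have := congrFun hw k
    rw [hL] at this
    rw [hφ]
    simpa using this
  have hcard1 : Module.finrank ℝ W ≤ Fintype.card κ := by
    have := LinearMap.finrank_le_finrank_of_injective hLinj
    rwa [Module.finrank_fintype_fun_eq_card] at this
  have hcard2 : Fintype.card κ ≤ Module.finrank ℝ W := by
    have := hli.fintype_card_le_finrank
    rwa [Subspace.dual_finrank_eq] at this
  have hcard : Module.finrank ℝ W = Module.finrank ℝ (κ → ℝ) := by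
    rw [Module.finrank_fintype_fun_eq_card]
    omega
  have hLsurj : Function.Surjective L :=
    (LinearMap.injective_iff_surjective_of_finrank_eq_finrank hcard).mp hLinj
  choose g hg using hLsurj
  refine ⟨Finset.univ.map ⟨a, ha⟩, fun i => if h : ∃ k, a k = i then
    ((g (Pi.single h.choose 1) : W) : E m) else 0, ?_, ?_⟩
  · rw [Finset.card_map, Finset.card_univ]
    omega
  · intro i hi
    simp only [Finset.mem_map, Finset.mem_univ, true_and, Function.Embedding.coeFn_mk] at hi
    obtain ⟨k, rfl⟩ := hi
    have hex : ∃ k', a k' = a k := ⟨k, rfl⟩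
    have hch : hex.choose = k := ha hex.choose_spec
    show (if h : ∃ k', a k' = a k then ((g (Pi.single h.choose 1) : W) : E m) else 0) ∈ W ∧
      ∀ j ∈ Finset.map ⟨a, ha⟩ Finset.univ,
        (if h : ∃ k', a k' = a k then ((g (Pi.single h.choose 1) : W) : E m) else 0) j
          = if a k = j then 1 else 0
    rw [dif_pos hex, hch]
    refine ⟨Submodule.coe_mem _, ?_⟩
    intro j hj
    simp only [Finset.mem_map, Finset.mem_univ, true_and, Function.Embedding.coeFn_mk] at hj
    obtain ⟨l, rfl⟩ := hj
    have h2 := congrFun (hg (Pi.single k 1)) l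
    rw [hL] at h2
    rw [h2]
    by_cases hkl : k = l
    · subst hkl
      simp
    · rw [Pi.single_eq_of_ne (Ne.symm hkl)]
      rw [if_neg (fun h => hkl (ha h))]

/-- Flatness for all small steps. -/
theorem UA2_flat_small {m : ℕ} {f : E m → ℝ} (hf : CV f) {y v : E m} {ε : ℝ} (hε : 0 < ε)
    (h : f (y + ε • v) + f (y - ε • v) = 2 * f y) (t : ℝ) (ht : |t| ≤ ε) :
    f (y + t • v) + f (y - t • v) = 2 * f y := by
  have hcv : ∀ (a b : E m) (s : ℝ), 0 ≤ s → s ≤ 1 → f ((1 - s) • a + s • b) ≤
      (1 - s) * f a + s * f b := by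
    intro a b s h0 h1
    exact hf.2 (mem_univ a) (mem_univ b) (by linarith) h0 (by ring)
  have key : ∀ s : ℝ, 0 ≤ s → s ≤ ε → f (y + s • v) + f (y - s • v) ≤ 2 * f y := by
    intro s h0 h1
    have hs0 : 0 ≤ s / ε := div_nonneg h0 hε.le
    have hs1 : s / ε ≤ 1 := (div_le_one hε).mpr h1
    have e1 := hcv y (y + ε • v) (s / ε) hs0 hs1
    have e2 := hcv y (y - ε • v) (s / ε) hs0 hs1
    have r1 : (1 - s / ε) • y + (s / ε) • (y + ε • v) = y + s • v := by
      rw [smul_add, smul_smul, div_mul_cancel₀ _ hε.ne', ← add_assoc, ← add_smul]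
      simp
    have r2 : (1 - s / ε) • y + (s / ε) • (y - ε • v) = y - s • v := by
      rw [smul_sub, smul_smul, div_mul_cancel₀ _ hε.ne', ← add_sub_assoc, ← add_smul]
      simp
    rw [r1] at e1
    rw [r2] at e2
    have : (s / ε) * (f (y + ε • v) + f (y - ε • v)) = (s / ε) * (2 * f y) := by rw [h]
    nlinarith
  have hge : f y ≤ (1 / 2) * f (y + t • v) + (1 / 2) * f (y - t • v) := by
    have := hcv (y + t • v) (y - t • v) (1 / 2) (by norm_num) (by norm_num)
    have r : (1 - 1 / 2 : ℝ) • (y + t • v) + (1 / 2 : ℝ) • (y - t • v) = y := by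
      module
    rw [r] at this
    linarith
  have hle : f (y + t • v) + f (y - t • v) ≤ 2 * f y := by
    rcases le_or_gt 0 t with h0 | h0
    · exact key t h0 (by rwa [abs_of_nonneg h0] at ht)
    · have := key (-t) (by linarith) (by rwa [abs_of_neg h0] at ht)
      rw [neg_smul, ← sub_eq_add_neg, sub_neg_eq_add] at this
      linarith
  linarith

theorem mem_piece_of : mem_piece_stmt := by
  classical
  intro m f hf y W hW
  obtain ⟨T, v, hT, hv⟩ := UA2_coords W
  -- uniform step
  have hcv : ConvexOn ℝ univ f := hf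
  have hex : ∀ i : Fin m, ∃ ε : ℝ, 0 < ε ∧ (i ∈ T → ∀ t : ℝ, |t| ≤ ε →
      f (y + t • v i) + f (y - t • v i) = 2 * f y) := by
    intro i
    by_cases hi : i ∈ T
    · obtain ⟨ε, hε, h⟩ := hW (v i) (hv i hi).1
      exact ⟨ε, hε, fun _ t ht => UA2_flat_small hf hε h t ht⟩
    · exact ⟨1, one_pos, fun h => absurd h hi⟩
  choose ε hε hflat using hex
  obtain ⟨δ, hδ, hδε⟩ : ∃ δ : ℝ, 0 < δ ∧ ∀ i, δ ≤ ε i := by
    rcases isEmpty_or_nonempty (Fin m) with hem | hne
    · exact ⟨1, one_pos, fun i => (hem.false i).elim⟩
    · obtain ⟨i₀, hi₀⟩ := Finite.exists_min ε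
      exact ⟨ε i₀, hε i₀, hi₀⟩
  let S : ℝ := ∑ i ∈ T, ‖v i‖
  have hS : 0 ≤ S := Finset.sum_nonneg fun i _ => norm_nonneg _
  obtain ⟨N, hN⟩ := exists_nat_ge (max S (m / δ))
  have hN1 : S ≤ N := le_trans (le_max_left _ _) hN
  have hN2 : m / δ ≤ N := le_trans (le_max_right _ _) hN
  have hNp : (0 : ℝ) < (N : ℝ) + 1 := by positivity
  refine ⟨T, N, hT, ?_⟩
  intro c hc
  have hci : ∀ i, |c i| ≤ 1 / ((N : ℝ) + 1) := fun i =>
    le_trans (by simpa using PiLp.norm_apply_le c i) hc
  refine ⟨∑ i ∈ T, c i • v i, ?_, ?_, ?_⟩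
  · intro j hj
    have h1 : (∑ i ∈ T, c i • v i) j = ∑ i ∈ T, (c i • v i) j := by
      simp
    rw [h1]
    have h2 : ∀ i ∈ T, (c i • v i) j = if i = j then c i else 0 := by
      intro i hi
      have := (hv i hi).2 j hj
      simp [this]
    rw [Finset.sum_congr rfl h2]
    simp [hj]
  · have h1 : ‖∑ i ∈ T, c i • v i‖ ≤ ∑ i ∈ T, (1 / ((N : ℝ) + 1)) * ‖v i‖ := by
      refine le_trans (norm_sum_le _ _) (Finset.sum_le_sum fun i _ => ?_)
      rw [norm_smul, Real.norm_eq_abs]
      exact mul_le_mul_of_nonneg_right (hci i) (norm_nonneg _)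
    rw [← Finset.mul_sum] at h1
    have h2 : (1 / ((N : ℝ) + 1)) * S ≤ 1 := by
      rw [one_div, inv_mul_le_iff₀ hNp]
      linarith
    have h3 : (1 : ℝ) ≤ (N : ℝ) + 1 := by
      have : (0 : ℝ) ≤ N := Nat.cast_nonneg N
      linarith
    exact le_trans h1 (le_trans h2 h3)
  · -- flatness of the combination
    have hq : ConvexOn ℝ univ (fun w : E m => f (y + w) + f (y - w)) := by
      refine ConvexOn.add ?_ ?_
      · refine ⟨convex_univ, fun a _ b _ s t hs ht hst => ?_⟩
        have := hcv.2 (mem_univ (y + a)) (mem_univ (y + b)) hs ht hst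
        have r : s • (y + a) + t • (y + b) = y + (s • a + t • b) := by
          have : y = (s + t) • y := by rw [hst, one_smul]
          calc s • (y + a) + t • (y + b) = (s + t) • y + (s • a + t • b) := by module
            _ = y + (s • a + t • b) := by rw [hst, one_smul]
        rw [r] at this
        exact this
      · refine ⟨convex_univ, fun a _ b _ s t hs ht hst => ?_⟩
        have := hcv.2 (mem_univ (y - a)) (mem_univ (y - b)) hs ht hst
        have r : s • (y - a) + t • (y - b) = y - (s • a + t • b) := by
          calc s • (y - a) + t • (y - b) = (s + t) • y - (s • a + t • b) := by module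
            _ = y - (s • a + t • b) := by rw [hst, one_smul]
        rw [r] at this
        exact this
    -- weights
    have hge : 2 * f y ≤ f (y + ∑ i ∈ T, c i • v i) + f (y - ∑ i ∈ T, c i • v i) := by
      set w := ∑ i ∈ T, c i • v i
      have := hcv.2 (mem_univ (y + w)) (mem_univ (y - w)) (by norm_num : (0:ℝ) ≤ 1 / 2)
        (by norm_num : (0:ℝ) ≤ 1 / 2) (by norm_num)
      have r : (1 / 2 : ℝ) • (y + w) + (1 / 2 : ℝ) • (y - w) = y := by module
      rw [r] at this
      simp only [smul_eq_mul] at this
      linarith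
    have hle : f (y + ∑ i ∈ T, c i • v i) + f (y - ∑ i ∈ T, c i • v i) ≤ 2 * f y := by
      rcases Nat.eq_zero_or_pos m with hm | hm
      · subst hm
        have : (∑ i ∈ T, c i • v i) = 0 := Subsingleton.elim _ _
        rw [this]
        simp
        linarith
      · have hmpos : (0 : ℝ) < m := by exact_mod_cast hm
        -- center of mass with equal weights 1/m over Fin m
        have hJ := hq.map_sum_le (t := Finset.univ) (w := fun _ : Fin m => 1 / (m : ℝ))
          (p := fun i => if i ∈ T then ((m : ℝ) * c i) • v i else 0)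
          (fun _ _ => by positivity) (by simp [hmpos.ne']) (fun _ _ => mem_univ _)
        have r : ∑ i : Fin m, (1 / (m : ℝ)) • (if i ∈ T then ((m : ℝ) * c i) • v i else 0)
            = ∑ i ∈ T, c i • v i := by
          rw [← Finset.sum_filter_add_sum_filter_not Finset.univ (fun i => i ∈ T)]
          have e1 : ∑ i ∈ Finset.univ.filter (fun i => ¬ i ∈ T),
              (1 / (m : ℝ)) • (if i ∈ T then ((m : ℝ) * c i) • v i else 0) = 0 := by
            apply Finset.sum_eq_zero
            intro i hi
            rw [if_neg (Finset.mem_filter.mp hi).2, smul_zero]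
          rw [e1, add_zero]
          have e2 : Finset.univ.filter (fun i => i ∈ T) = T := by
            ext i
            simp
          rw [e2]
          refine Finset.sum_congr rfl fun i hi => ?_
          rw [if_pos hi, smul_smul]
          congr 1
          field_simp
        rw [r] at hJ
        refine le_trans hJ ?_
        have hterm : ∀ i : Fin m, f (y + (if i ∈ T then ((m : ℝ) * c i) • v i else 0))
            + f (y - (if i ∈ T then ((m : ℝ) * c i) • v i else 0)) = 2 * f y := by
          intro i
          by_cases hi : i ∈ T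
          · rw [if_pos hi]
            refine hflat i hi _ ?_
            rw [abs_mul, abs_of_pos hmpos]
            have h1 : (m : ℝ) * |c i| ≤ m * (1 / ((N : ℝ) + 1)) :=
              mul_le_mul_of_nonneg_left (hci i) hmpos.le
            have h2 : (m : ℝ) * (1 / ((N : ℝ) + 1)) ≤ δ := by
              rw [mul_one_div, div_le_iff₀ hNp]
              rw [div_le_iff₀ hδ] at hN2
              nlinarith
            exact le_trans h1 (le_trans h2 (hδε i))
          · rw [if_neg hi]
            simp
            ring
        have : ∑ i : Fin m, (1 / (m : ℝ)) • (f (y + (if i ∈ T then ((m : ℝ) * c i) • v i else 0))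
            + f (y - (if i ∈ T then ((m : ℝ) * c i) • v i else 0))) = 2 * f y := by
          rw [Finset.sum_congr rfl fun i _ => by rw [hterm i]]
          simp
          field_simp
        exact this.le
    exact le_antisymm hle hge

end Pool.Agent.helper83.SC
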